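import Pool.Agent.SSF.StmtsC

/-!
# Row HLF of the squad SSF, part C (MP_005a41_gt): locally finite closed covers
-/

set_option autoImplicit false

open Set Topology

namespace Pool.Agent.SSF.H1

open Pool.Agent.LSG Pool.Agent.LPR Pool.Agent.SSF

theorem hlf (hHgl : HglStmt) (hHuf : HufStmt) (hHho : HhoStmt) (hLcm : LcmStmt) :
    HlfStmt := by
  classical
  intro X I _ _ Y hYc hYl hYu hY
  apply hHgl X
  intro x
  obtain ⟨U, hU, hUf⟩ := hYl x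
  obtain ⟨V, hV, hVc, hVU⟩ := exists_mem_nhds_isClosed_subset hU
  have hVN : V ⊆ ⋃ i ∈ hUf.toFinset, Y i := by
    intro y hy
    have h1 : y ∈ ⋃ i, Y i := by
      rw [hYu]
      exact mem_univ y
    obtain ⟨i, hi⟩ := mem_iUnion.1 h1
    refine mem_iUnion₂.2 ⟨i, ?_, hi⟩
    rw [Set.Finite.mem_toFinset]
    exact ⟨y, hi, hVU hy⟩
  have hHS : HS ↥(⋃ i ∈ hUf.toFinset, Y i) :=
    hHuf X I hUf.toFinset Y hYc fun i _ => hY i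
  let e : ↥(⋃ i ∈ hUf.toFinset, Y i) ≃ₜ ↥(⋃ i ∈ hUf.toFinset, Y i) × Unit :=
    (Homeomorph.prodPUnit _).symm
  have hHS' : HS (↥(⋃ i ∈ hUf.toFinset, Y i) × Unit) := hHho _ _ ⟨e⟩ hHS
  refine ⟨interior V, isOpen_interior, mem_interior_iff_mem_nhds.2 hV, fun O' hO' hop => ?_⟩
  have hcl : closure O' ⊆ ⋃ i ∈ hUf.toFinset, Y i :=
    (closure_minimal (hO'.trans interior_subset) hVc).trans hVN
  obtain ⟨O₂, hO₂, ⟨φ⟩, ⟨ψ⟩⟩ := hLcm X _ Unit _ e O' hop hcl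
  obtain ⟨i, p, hip⟩ := hHS' O₂ hO₂
  refine ⟨(φ.symm : ↥(Fo O₂) →L[ℝ] ↥(Fo O')).comp (i.comp (ψ : ↥(Sg O') →L[ℝ] ↥(Sg O₂))),
    (ψ.symm : ↥(Sg O₂) →L[ℝ] ↥(Sg O')).comp (p.comp (φ : ↥(Fo O') →L[ℝ] ↥(Fo O₂))), fun f => ?_⟩
  show ψ.symm (p (φ (φ.symm (i (ψ f))))) = f
  rw [ContinuousLinearEquiv.apply_symm_apply, hip, ContinuousLinearEquiv.symm_apply_apply]

end Pool.Agent.SSF.H1
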